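import Pool.Agent.H23.DT.Dat
import Pool.Agent.H98.Tie.CountD

/-!
# Double ties: the interface to the checker
-/

namespace Pool.Agent.H23.DT

open Pool.Agent.H78.RT
open Pool.Agent.H78.Tie
open Pool.Agent.H81.AP (LF dot dot_nil dot_nil' dot_cons AllNn AllNe)

/-- double ties in normal form; `om * (2 * wr - 1)` is the sign of `T.x` -/
structure DD (A : TAp) (T T' : A.Tie) (om wr : ℤ) : Prop where
  F : A.Fl
  ht : T'.t = A.q - T.t
  e1 : T.ep = 1
  e2 : T'.ep = -1
  t1 : T.t ≠ 1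
  t2 : T'.t ≠ 1
  hom : A.om = om
  hwr : wr = 0 ∨ wr = 1
  hx : T'.x = T.x + om * A.h - om * wr * A.p
  x0 : 0 < om * (2 * wr - 1) * T.x
  x1 : om * (2 * wr - 1) * T.x < A.h
  y0 : 0 < -(om * (2 * wr - 1) * T'.x)
  y1 : -(om * (2 * wr - 1) * T'.x) < A.h

/-- the environment -/
noncomputable def env (A : TAp) (T : A.Tie) (r : List ℤ) : List ℤ :=
  NN A :: A.q * A.w :: A.q * A.h :: A.D :: A.q * T.x :: th A T.t :: th A A.q :: A.q :: r

variable {A : TAp} {T T' : A.Tie} {om wr : ℤ}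

theorem DD.om1 (d : DD A T T' om wr) : om = 1 ∨ om = -1 := by rw [← d.hom]; exact A.hom

theorem DD.th' (d : DD A T T' om wr) : th A T'.t = th A A.q - th A T.t := by
  rw [d.ht, th_sub]

theorem DD.q0 (_d : DD A T T' om wr) : (0 : ℤ) < A.q := A.q_pos'

/-- records of `t`, `q`, `t'` -/
theorem DD.recT (d : DD A T T' om wr) :
    Rec A T.t (A.q * A.w + A.sg) (A.q * T.x - A.q * A.w) (th A T.t) := by
  have := Rec.tie T
  rwa [d.e1, one_mul, one_mul, mul_sub] at this

theorem DD.recQ (d : DD A T T' om wr) :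
    Rec A A.q 0 (-(om * (A.q * A.h)) + om * wr * NN A) (th A A.q) := by
  have h1 := Rec.Q A (th_eq A A.q)
  have h2 := (Rec.S A).lin h1 (om * wr)
  rw [d.hom] at h2
  have e1 : om * wr * 0 + (A.q : ℤ) = A.q := by ring
  have e2 : om * wr * 0 + (0 : ℤ) = 0 := by ring
  have e3 : om * wr * NN A + -(om * (A.q * A.h)) = -(om * (A.q * A.h)) + om * wr * NN A := by ring
  have e4 : om * wr * 0 + th A A.q = th A A.q := by ring
  rwa [e1, e2, e3, e4] at h2

theorem DD.recT' (d : DD A T T' om wr) :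
    Rec A T'.t (-(A.q * A.w) - A.sg)
      (A.q * A.w - A.q * T.x - om * (A.q * A.h) + om * wr * NN A) (th A A.q - th A T.t) := by
  have h2 := d.recT.lin d.recQ (-1)
  have e1 : -1 * T.t + (A.q : ℤ) = T'.t := by rw [d.ht]; ring
  have e2 : -1 * (A.q * A.w + A.sg) + 0 = -(A.q * A.w) - A.sg := by ring
  have e3 : -1 * (A.q * T.x - A.q * A.w) + (-(om * (A.q * A.h)) + om * wr * NN A)
    = A.q * A.w - A.q * T.x - om * (A.q * A.h) + om * wr * NN A := by ring
  have e4 : -1 * th A T.t + th A A.q = th A A.q - th A T.t := by ring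
  rwa [e1, e2, e3, e4] at h2

/-- the base facts -/
theorem DD.facts (d : DD A T T' om wr) :
    6 ≤ (A.q : ℤ) ∧ 2 * (A.q : ℤ) ≤ A.q * A.w ∧ 2 * (A.q : ℤ) ≤ A.q * A.h ∧
    2 * (A.q * A.w : ℤ) + A.q ≤ NN A ∧ 2 * (A.q * A.h : ℤ) + A.q ≤ NN A ∧
    2 * A.D + 2 ≤ NN A + A.q ∧ A.q + A.sg ≤ th A T.t ∧ A.q - A.sg ≤ th A A.q - th A T.t ∧
    th A T.t < A.D ∧ th A A.q - th A T.t < A.D ∧ A.D < th A A.q := by
  have h1 := tie_th T d.t1
  have h2 := tie_th T' d.t2
  rw [d.e1, one_mul] at h1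
  rw [d.e2, d.th'] at h2
  have h3 := th_ltD A T.tp
  have h4 := th_ltD A T'.tp
  rw [d.th'] at h4
  have h5 := th_lt A (i := (A.p : ℤ)) (j := A.q) (by exact_mod_cast A.pq)
  rw [th_p] at h5
  exact ⟨q6 A, W2 A, H2 A, NW A, NH A, ND A, h1, by linarith, h3, h4, h5⟩

theorem AllNn.append {v : List ℤ} : ∀ {l l' : List LF}, AllNn v l → AllNn v l' →
    AllNn v (l ++ l')
  | [], _, _, h => h
  | _ :: _, _, h, h' => ⟨h.1, AllNn.append h.2 h'⟩

theorem AllB.append {v : List ℤ} : ∀ {l l' : List LR}, AllB A v l → AllB A v l' →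
    AllB A v (l ++ l')
  | [], _, _, h => h
  | _ :: _, _, h, h' => ⟨h.1, AllB.append h.2 h'⟩

theorem AllC.toB {v : List ℤ} : ∀ {l : List LR}, AllC A v l → AllB A v l
  | [], _ => trivial
  | _ :: _, h => ⟨⟨h.1.choose, h.1.choose_spec.1⟩, AllC.toB h.2⟩

theorem DD.G (d : DD A T T' om wr) {sp : Bool} (hsg : A.sg = sgv sp) (r : List ℤ) :
    AllNn (env A T r) (G0 (sgv sp) (om * (2 * wr - 1)) wr) := by
  obtain ⟨f1, f2, f3, f4, f5, f6, f7, f8, f9, f10, f11⟩ := d.facts
  have hq := A.q_pos'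
  rw [hsg] at f7 f8
  have f12 : A.q + 2 ≤ A.D := by
    cases sp
    · have : sgv false = -1 := rfl
      omega
    · have : sgv true = 1 := rfl
      omega
  have x0 := mul_le_mul_of_nonneg_left (show (1 : ℤ) ≤ om * (2 * wr - 1) * T.x by
    have := d.x0; omega) hq.le
  have x1 := mul_le_mul_of_nonneg_left (show om * (2 * wr - 1) * T.x + 1 ≤ A.h by
    have := d.x1; omega) hq.le
  have y0 := mul_le_mul_of_nonneg_left (show (1 : ℤ) ≤ -(om * (2 * wr - 1) * T'.x) by
    have := d.y0; omega) hq.le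
  have y1 := mul_le_mul_of_nonneg_left (show -(om * (2 * wr - 1) * T'.x) + 1 ≤ A.h by
    have := d.y1; omega) hq.le
  rw [d.hx] at y0 y1
  have o2 : om * om = 1 := by rcases d.om1 with h | h <;> rw [h] <;> norm_num
  have w2 : wr * wr = wr := by rcases d.hwr with h | h <;> rw [h] <;> norm_num
  have key : om * (2 * wr - 1) * (T.x + om * A.h - om * wr * A.p)
      = om * (2 * wr - 1) * T.x + (2 * wr - 1) * A.h - wr * A.p := by
    linear_combination ((2 * wr - 1) * A.h - (2 * wr - 1) * wr * A.p) * o2 - 2 * A.p * w2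
  rw [key] at y0 y1
  have e1 : (A.q : ℤ) * (om * (2 * wr - 1) * T.x) = om * (2 * wr - 1) * (A.q * T.x) := by ring
  have e2 : (A.q : ℤ) * -(om * (2 * wr - 1) * T.x + (2 * wr - 1) * A.h - wr * A.p)
      = -(om * (2 * wr - 1) * (A.q * T.x)) - (2 * wr - 1) * (A.q * A.h) + wr * NN A := by
    unfold NN; ring
  rw [e1] at x0
  rw [mul_add, e1] at x1
  rw [e2] at y0
  rw [mul_add, e2] at y1
  unfold env G0
  simp only [AllNn, dot_cons, dot_nil, mul_one]
  refine ⟨?_, ?_, ?_, ?_, ?_, ?_, ?_, ?_, ?_, ?_, ?_, ?_, ?_, ?_, ?_, ?_, trivial⟩ <;> linarith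

/-- the forbidden overlaps -/
theorem DD.ov (d : DD A T T' om wr) (hn : T.NoOvD) (r : List ℤ) :
    NoOvZ A (vals (env A T r) [[0, 0, 0, 0, 0, 0, 1], [0, 0, 0, 0, 0, 0, -1, 1]]) := by
  intro i U S θ hc he z z' ⟨h1, h2, h3, h4⟩
  have hq := A.q_pos'
  unfold env at he
  simp only [vals, dot_cons, dot_nil, List.mem_cons, List.not_mem_nil, or_false, forall_eq_or_imp,
    forall_eq] at he
  have hθ := hc.1.th
  have n1 : i ≠ T.t := by
    rintro rfl
    apply he.1
    rw [hθ]; ring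
  have n2 : i ≠ A.q - T.t := by
    rintro rfl
    apply he.2
    rw [hθ, th_sub]; ring
  obtain ⟨m, f, s, c, hU, hS, f0, f1⟩ := hc.cls
  have c' : A.Cls i (m - z * A.p) f (s + z * A.p - z' * A.p) := by
    refine ⟨c.1, c.2.1, f0, f1, ?_, ?_⟩
    · obtain ⟨y, hy⟩ := c.2.2.2.2.1
      exact ⟨y + z, by linear_combination hy⟩
    · obtain ⟨y, hy⟩ := c.2.2.2.2.2
      exact ⟨y - z + z', by linear_combination hy⟩
  refine hn i _ _ _ c' n1 n2 ?_
  have e1 : U - z * NN A = A.q * (m - z * A.p) + f := by rw [hU]; unfold NN; ring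
  have e2 : U + S - z' * NN A = A.q * (m - z * A.p + (s + z * A.p - z' * A.p)) + f := by
    rw [hU, hS]; unfold NN; ring
  rw [e1] at h1 h2
  rw [e2] at h3 h4
  have key : ∀ {M k : ℤ}, 0 ≤ A.q * M + f + A.q * k → 0 ≤ A.q * k - (A.q * M + f) - 1 →
      -k ≤ M ∧ M < k := by
    intro M k a b
    constructor
    · by_contra hc
      have : M + k + 1 ≤ 0 := by omega
      have : A.q * (M + k + 1) ≤ A.q * 0 := mul_le_mul_of_nonneg_left this hq.le
      nlinarith
    · by_contra hc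
      have : 0 ≤ M - k := by omega
      have : A.q * 0 ≤ A.q * (M - k) := mul_le_mul_of_nonneg_left this hq.le
      nlinarith
  exact ⟨(key h1 h2).1, (key h1 h2).2, (key h3 h4).1, (key h3 h4).2⟩

/-- a checked tree for double ties -/
theorem DD.run (d : DD A T T' om wr) {sp : Bool} (hsg : A.sg = sgv sp) {J : List LR}
    {g ne : List LF} {ov : Bool} {r : List ℤ} (hJ : AllC A (env A T r) J)
    (hg : AllNn (env A T r) g) (hne : AllNe (env A T r) ne) (hov : ov = true → T.NoOvD)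
    {t : Pool.Agent.H78.RT.T} (h : (mkD sp om wr J g ne ov).chk t = true) : False := by
  have hq := A.q_pos'
  have hp := A.p_pos'
  have rt := d.recT
  have rt' := d.recT'
  have rq := d.recQ
  have lt' := T'.tp
  have pt' := T'.t0
  rw [d.ht] at lt' pt'
  refine Pool.Agent.H78.RT.run d.F (ruleF2 d.F T) (mkD sp om wr J g ne ov) (v := env A T r) ⟨_, rfl⟩
    (by rw [hsg]; cases sp <;> rfl) (lL := some (A.p - A.q + T.t)) (hL := some T.t)
    (lR := some (A.p - T.t)) (hR := some (A.q - T.t)) ?_ ?_ ?_ ?_ ?_ ?_ ?_ ?_ hne trivial ?_ ?_ h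
  · change A.D * (A.p - A.q + T.t) = A.p * dot [0, 0, 0, 0, 1, 0, 1, -1] (1 :: env A T r)
    unfold env
    simp only [dot_cons, dot_nil]
    rw [th_eq, th_add, th_sub, th_p]; ring
  · change A.D * T.t = A.p * dot [0, 0, 0, 0, 0, 0, 1] (1 :: env A T r)
    unfold env
    simp only [dot_cons, dot_nil]
    rw [th_eq]; ring
  · change A.D * (A.p - T.t) = A.p * dot [0, 0, 0, 0, 1, 0, -1] (1 :: env A T r)
    unfold env
    simp only [dot_cons, dot_nil]
    rw [th_eq, th_sub, th_p]; ring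
  · change A.D * (A.q - T.t) = A.p * dot [0, 0, 0, 0, 0, 0, -1, 1] (1 :: env A T r)
    unfold env
    simp only [dot_cons, dot_nil]
    rw [th_eq, th_sub]; ring
  · intro j h1 h2
    have h1 := h1 _ rfl
    have h2 := h2 _ rfl
    exact Or.inl ⟨d.e1, h2, by omega⟩
  · intro j h1 h2
    have h1 := h1 _ rfl
    have h2 := h2 _ rfl
    exact Or.inl ⟨d.e1, by omega, h2⟩
  · refine ⟨⟨T.t, ?_⟩, AllB.append (AllC.toB hJ) ⟨⟨A.q, ?_⟩, ⟨A.p, ?_⟩, trivial⟩⟩
    · unfold LR.Ok rT env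
      simp only [dot_cons, dot_nil]
      rw [← hsg]
      convert rt using 1 <;> ring
    · unfold LR.Ok rQ env
      simp only [dot_cons, dot_nil]
      convert rq using 1; ring
      ring
    · unfold LR.Ok rP env
      simp only [dot_cons, dot_nil]
      convert Rec.P A using 1 <;> ring
  · refine ⟨⟨T.t, ⟨?_, T.t0, T.tp⟩⟩, ⟨T'.t, ⟨?_, T'.t0, T'.tp⟩⟩, hJ⟩
    · unfold rT env
      simp only [dot_cons, dot_nil]
      rw [← hsg]
      convert rt using 1 <;> ring
    · unfold rT' env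
      simp only [dot_cons, dot_nil]
      rw [← hsg]
      convert rt' using 1 <;> ring
  · intro ho
    change ov = true at ho
    subst ho
    exact d.ov (hov rfl) r
  · exact AllNn.append hg (d.G hsg r)

end Pool.Agent.H23.DT
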