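import Pool.Agent.H78.RT.Inst

/-!
# Static data of the trees for double ties

Environment `v = [N, W, H, D, X, T, R, q, ...]` with `X = q x`, `T = θ_t`, `R = θ_q`.
-/

namespace Pool.Agent.H23.DT

open Pool.Agent.H78.RT
open Pool.Agent.H81.AP (LF)

/-- record of the tie `t` -/
def rT (sg : Int) : LR := ⟨[sg, 0, 1], [0, 0, -1, 0, 0, 1], [0, 0, 0, 0, 0, 0, 1]⟩

/-- record of the second tie `q - t` -/
def rT' (sg om wr : Int) : LR :=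
  ⟨[-sg, 0, -1], [0, om * wr, 1, -om, 0, -1], [0, 0, 0, 0, 0, 0, -1, 1]⟩

/-- record of the index `q` -/
def rQ (om wr : Int) : LR := ⟨[], [0, om * wr, 0, -om], [0, 0, 0, 0, 0, 0, 0, 1]⟩

/-- record of the index `p` -/
def rP : LR := ⟨[0, 0, 0, 0, 1], [], [0, 0, 0, 0, 1]⟩

/-- the inequalities which always hold; `sx` is the sign of `x` -/
def G0 (sg sx wr : Int) : List LF :=
  [[0, -wr, 0, 2 * wr, 0, sx, 0, 0, -1],
   [0, wr, 0, 1 - 2 * wr, 0, -sx, 0, 0, -1],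
   [0, 0, 0, 1, 0, -sx, 0, 0, -1],
   [0, 0, 0, 0, 0, sx, 0, 0, -1],
   [-1, 0, 0, 0, -1, 0, 0, 1],
   [-1, 0, 0, 0, 1, 0, 1, -1],
   [sg, 0, 0, 0, 0, 0, -1, 1, -1],
   [-1, 0, 0, 0, 1, 0, -1],
   [-sg, 0, 0, 0, 0, 0, 1, 0, -1],
   [-2, 0, 0, 0, 1, 0, 0, 0, -1],
   [-2, 1, 0, 0, -2, 0, 0, 0, 1],
   [0, 1, 0, -2, 0, 0, 0, 0, -1],
   [0, 1, -2, 0, 0, 0, 0, 0, -1],
   [0, 0, 0, 1, 0, 0, 0, 0, -2],
   [0, 0, 1, 0, 0, 0, 0, 0, -2],
   [-6, 0, 0, 0, 0, 0, 0, 0, 1]]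

def sgv (sp : Bool) : Int := match sp with | true => 1 | false => -1

/-- static data of a tree: extra classes `J`, extra inequalities `g`, nonzero forms `ne`,
`ov`: overlaps are forbidden -/
def mkD (sp : Bool) (om wr : Int) (J : List LR) (g ne : List LF) (ov : Bool) : Dat where
  sp := sp
  ov := ov
  L := ⟨some [0, 0, 0, 0, 1, 0, 1, -1], some [0, 0, 0, 0, 0, 0, 1]⟩
  R := ⟨some [0, 0, 0, 0, 1, 0, -1], some [0, 0, 0, 0, 0, 0, -1, 1]⟩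
  B := rT (sgv sp) :: (J ++ [rQ om wr, rP])
  C := rT (sgv sp) :: rT' (sgv sp) om wr :: J
  N := ne
  O := []
  E := match ov with
    | true => [[0, 0, 0, 0, 0, 0, 1], [0, 0, 0, 0, 0, 0, -1, 1]]
    | false => []
  G := g ++ G0 (sgv sp) (om * (2 * wr - 1)) wr

end Pool.Agent.H23.DT
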