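import Pool.Agent.H23.DT.Base
import Pool.Agent.H67.NO.Glue

/-!
# Double ties: genericity, existence of auxiliary classes
-/

namespace Pool.Agent.H23.DT

open Pool.Agent.H78.RT
open Pool.Agent.H78.Tie
open Pool.Agent.H81.AP (LF dot dot_nil dot_nil' dot_cons AllNn AllNe)

variable {A : TAp} {T T' : A.Tie} {om wr : ℤ}

/-- if `a i ≡ 0` then `i ≡ 0` -/
theorem dvd_of (A : TAp) {i : ℤ} (h : (A.q : ℤ) ∣ A.a * i) : (A.q : ℤ) ∣ i :=
  A.hqa.dvd_of_dvd_mul_left h

theorem DD.at (d : DD A T T' om wr) : (A.q : ℤ) ∣ A.a * T.t - A.sg := by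
  have h1 := (dvd_mul_left (A.q : ℤ) A.p).trans T.tie
  rw [d.e1, one_mul] at h1
  have h2 := dvd_add h1 (dvd_mul_right (A.q : ℤ) A.w)
  rwa [show A.a * T.t - (A.q * A.w + A.sg) + A.q * A.w = A.a * T.t - A.sg by ring] at h2

/-- an index `i` with `a i ≡ 0, ± 1` is congruent to `0`, `t` or `- t` -/
theorem DD.res (d : DD A T T' om wr) {i e : ℤ} (he : -1 ≤ e) (he' : e ≤ 1)
    (h : (A.q : ℤ) ∣ A.a * i - e) : (A.q : ℤ) ∣ i ∨ (A.q : ℤ) ∣ i - T.t ∨ (A.q : ℤ) ∣ i + T.t := by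
  have h1 := d.at
  have hs := A.hsg
  by_cases h0 : e = 0
  · left
    rw [h0, sub_zero] at h
    exact dvd_of A h
  · by_cases h2 : e = A.sg
    · right; left
      apply dvd_of A
      have := dvd_sub h h1
      rwa [h2, show A.a * i - A.sg - (A.a * T.t - A.sg) = A.a * (i - T.t) by ring] at this
    · right; right
      apply dvd_of A
      have h3 : e = - A.sg := by omega
      have := dvd_add h h1
      rwa [h3, show A.a * i - -A.sg + (A.a * T.t - A.sg) = A.a * (i + T.t) by ring] at this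

theorem not_dvd_small {q i : ℤ} (h0 : 0 < i) (h1 : i < q) : ¬ q ∣ i := fun h => by
  have := Int.le_of_dvd h0 h
  omega

/-- genericity of `D` -/
theorem DD.Dgen (d : DD A T T' om wr) (k : ℤ) : A.q * k + 2 ≤ A.D ∨ A.D + 2 ≤ A.q * k := by
  by_contra hc
  have h1 := th_mod A A.p
  rw [th_p] at h1
  have h2 : (A.q : ℤ) ∣ A.a * A.p - (A.D - A.q * k) := by
    have := dvd_add h1 (dvd_mul_right (A.q : ℤ) k)
    rwa [show A.a * A.p - A.D + A.q * k = A.a * A.p - (A.D - A.q * k) by ring] at this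
  have pq : (A.p : ℤ) < A.q := by exact_mod_cast A.pq
  have hp := A.p_pos'
  have t0 := T.t0
  have tp := T.tp
  have lt' := T'.tp
  rw [d.ht] at lt'
  rcases d.res (by omega) (by omega) h2 with h | h | h
  · exact not_dvd_small hp pq h
  · exact not_dvd_small (by omega) (by omega) h
  · obtain ⟨c, hc⟩ := h
    have : c = 1 := by
      have c0 : 0 < c := by
        by_contra hn
        have : A.q * c ≤ A.q * 0 := mul_le_mul_of_nonneg_left (by omega) (by omega)
        omega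
      have c1 : c < 2 := by
        by_contra hn
        have : A.q * 2 ≤ A.q * c := mul_le_mul_of_nonneg_left (by omega) (by omega)
        omega
      omega
    rw [this] at hc
    omega

/-- genericity of a class different from `t`, `t'` -/
theorem DD.Ugen (d : DD A T T' om wr) {j U S θ : ℤ} (h : IsC A j U S θ) (h1 : j ≠ T.t)
    (h2 : j ≠ A.q - T.t) (k : ℤ) : A.q * k + 2 ≤ U ∨ U + 2 ≤ A.q * k := by
  by_contra hc
  have h3 := (dvd_mul_left (A.q : ℤ) A.p).trans h.1.1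
  have h4 : (A.q : ℤ) ∣ A.a * j - (U - A.q * k) := by
    have := dvd_add h3 (dvd_mul_right (A.q : ℤ) k)
    rwa [show A.a * j - U + A.q * k = A.a * j - (U - A.q * k) by ring] at this
  have pq : (A.p : ℤ) < A.q := by exact_mod_cast A.pq
  have hp := A.p_pos'
  have t0 := T.t0
  have tp := T.tp
  obtain ⟨-, j0, jp⟩ := h
  rcases d.res (by omega) (by omega) h4 with h | h | h
  · exact not_dvd_small j0 (by omega) h
  · rcases lt_or_gt_of_ne h1 with h5 | h5
    · have h6 : (A.q : ℤ) ∣ T.t - j := by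
        rw [← dvd_neg]; simpa using h
      exact not_dvd_small (by omega) (by omega) h6
    · exact not_dvd_small (by omega) (by omega) h
  · obtain ⟨c, hc⟩ := h
    have : c = 1 := by
      have c0 : 0 < c := by
        by_contra hn
        have : A.q * c ≤ A.q * 0 := mul_le_mul_of_nonneg_left (by omega) (by omega)
        omega
      have c1 : c < 2 := by
        by_contra hn
        have : A.q * 2 ≤ A.q * c := mul_le_mul_of_nonneg_left (by omega) (by omega)
        omega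
      omega
    rw [this] at hc
    omega

/-- a representative of the residue class of `s` with `- p ≤ 2 s' ≤ p` -/
theorem exists_rep {p : ℤ} (hp : 0 < p) (s : ℤ) : ∃ s', p ∣ s - s' ∧ -p ≤ 2 * s' ∧ 2 * s' ≤ p := by
  have h0 := Int.emod_nonneg s hp.ne'
  have h1 := Int.emod_lt_of_pos s hp
  have he := Int.emod_add_mul_ediv s p
  by_cases c : 2 * (s % p) ≤ p
  · exact ⟨s % p, ⟨s / p, by linarith⟩, by omega, c⟩
  · refine ⟨s % p - p, ⟨s / p + 1, ?_⟩, by omega, by omega⟩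
    rw [mul_add, mul_one]; linarith

/-- a class with `U = θ - q c` or `U = θ` -/
theorem exV (A : TAp) {c : ℤ} (c0 : 0 < c) (cp : c < A.p) : ∃ j s c', IsC A j (th A j - A.q * c')
    (A.q * s) (th A j) ∧ (c' = c ∨ c' = 0) ∧ -(A.p : ℤ) ≤ 2 * s ∧ 2 * s ≤ A.p := by
  obtain ⟨z, hz⟩ := th_mod A 1
  have hz' : ∀ i, A.a * i = th A i + A.q * (z * i) := by
    intro i
    have : th A i = th A 1 * i := by unfold th; ring
    rw [this]; linear_combination i * hz
  obtain ⟨i, i0, i1, hi⟩ := TAp.exists_mul_dvd A.p_pos' c0 cp z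
  obtain ⟨s, hs, s0, s1⟩ := exists_rep A.p_pos' (A.e * i)
  have key : ∀ c', (A.p : ℤ) ∣ z * i + c' → IsC A i (th A i - A.q * c') (A.q * s) (th A i) := by
    rintro c' ⟨y, hy⟩
    refine ⟨Rec.of ⟨y, ?_⟩ hs, i0, i1⟩
    rw [hz']; unfold NN; linear_combination A.q * hy
  rcases hi with h | h
  · exact ⟨i, s, c, key c h, Or.inl rfl, s0, s1⟩
  · exact ⟨i, s, 0, key 0 (by rwa [add_zero]), Or.inr rfl, s0, s1⟩

/-- the class of row `1` -/
theorem exR (A : TAp) : ∃ j U, IsC A j U (A.q * 1) (th A j) ∧ -NN A ≤ 2 * U ∧ 2 * U ≤ NN A := by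
  have hp := A.p_pos'
  have h0 := Int.emod_nonneg A.e' hp.ne'
  have h1 := Int.emod_lt_of_pos A.e' hp
  have he := Int.emod_add_mul_ediv A.e' A.p
  have hr : (A.p : ℤ) ∣ A.e * (A.e' % A.p) - 1 := by
    obtain ⟨y, hy⟩ := A.inv
    exact ⟨y - A.e * (A.e' / A.p), by linear_combination hy + A.e * he⟩
  have j0 : 0 < A.e' % (A.p : ℤ) := by
    rcases lt_or_eq_of_le h0 with h | h
    · exact h
    · exfalso
      rw [← h, mul_zero, zero_sub, dvd_neg] at hr
      have := Int.le_of_dvd (by norm_num) hr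
      have := A.w2; have := A.hw
      omega
  obtain ⟨U, hU, U0, U1⟩ := exists_rep (NN_pos A) (A.a * (A.e' % A.p))
  exact ⟨A.e' % A.p, U, ⟨Rec.of hU hr, j0, h1⟩, U0, U1⟩

/-- an overlapping class -/
theorem DD.exO (d : DD A T T' om wr) (hn : ¬ T.NoOvD) : ∃ j U S, IsC A j U S (th A j) ∧
    th A j ≠ th A T.t ∧ th A j ≠ th A A.q - th A T.t ∧
    ((2 ≤ U ∧ U + 2 ≤ A.q * A.w) ∨ (-(A.q * A.w) + 2 ≤ U ∧ U + 2 ≤ 0)) ∧
    ((2 ≤ U + S ∧ U + S + 2 ≤ A.q * A.h) ∨ (-(A.q * A.h) + 2 ≤ U + S ∧ U + S + 2 ≤ 0)) := by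
  unfold TAp.Tie.NoOvD at hn
  push Not at hn
  obtain ⟨i, m, f, s, c, n1, n2, m0, m1, v0, v1⟩ := hn
  have hq := A.q_pos'
  have hc := IsC.ofCls c
  have f0 := c.2.2.1
  have f1 := c.2.2.2.1
  refine ⟨i, _, _, hc, ?_, ?_, ?_, ?_⟩
  · intro h
    rcases lt_or_gt_of_ne n1 with h1 | h1
    · have := th_lt A h1; omega
    · have := th_lt A h1; omega
  · intro h
    rw [← th_sub] at h
    rcases lt_or_gt_of_ne n2 with h1 | h1
    · have := th_lt A h1; omega
    · have := th_lt A h1; omega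
  · have g0 := d.Ugen hc n1 n2 0
    have g1 := d.Ugen hc n1 n2 A.w
    have g2 := d.Ugen hc n1 n2 (-A.w)
    have a1 : A.q * (m + 1) ≤ A.q * (A.w : ℤ) := mul_le_mul_of_nonneg_left (by omega) hq.le
    have a2 : A.q * (-(A.w : ℤ)) ≤ A.q * m := mul_le_mul_of_nonneg_left (by omega) hq.le
    rw [mul_add, mul_one] at a1
    rw [mul_neg] at a2 g2
    rw [mul_zero] at g0
    omega
  · have hc' : IsC A i (A.q * m + f) (A.q * s) (th A i) := hc
    have e1 : A.q * m + f + A.q * s = A.q * (m + s) + f := by ring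
    have g0 := d.Ugen hc n1 n2 (-s)
    have g1 := d.Ugen hc n1 n2 (A.h - s)
    have g2 := d.Ugen hc n1 n2 (-A.h - s)
    have a1 : A.q * (m + s + 1) ≤ A.q * (A.h : ℤ) := mul_le_mul_of_nonneg_left (by omega) hq.le
    have a2 : A.q * (-(A.h : ℤ)) ≤ A.q * (m + s) := mul_le_mul_of_nonneg_left (by omega) hq.le
    rw [mul_add, mul_one] at a1
    rw [mul_neg] at a2 g0
    rw [mul_sub] at g1 g2
    rw [mul_neg] at g2
    rw [e1]
    rw [mul_add] at a1 a2 ⊢
    omega

end Pool.Agent.H23.DT
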