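import Pool.Agent.H23.DT.Dat

/-! Decision tree (generated): sg -1 om -1 wrap 0 lab 0 -/

set_option linter.all false

namespace Pool.Agent.H23.DT

open Pool.Agent.H78.RT
open Pool.Agent.H81.AP (LF)

noncomputable def dmm0A201_t : T := (.br 35979130911 (.br 147438149175327 (.br 578943008 (.cl 18928 4312531201 721153 (.cl 17935 917761 0x90202010201020101010001000102 (.lf 1 0 false true true 786689 917761 65793 6 false ⟨false, 7, 0x205090102020202030101, 262401⟩ ⟨true, 8, 0xc0205020202000101, 64441680129⟩ ⟨false, 7, 0x203090102010201030101, 21492662529⟩ ⟨true, 8, 131329, 3381006862516737⟩ (.out 8 21492662529 0x205090102020202030201) (.diff 8 257 0xc0202010201030101 ⟨true, 8, 0x50206010501030101, 1⟩ ⟨false, 7, 0x206090102020203030101, 8606712065⟩) (.out 7 0x20409010201060201 0x50206010501030201) (.out 7 0x2060201060102020202030101 196865)))) (.cl 18928 4312531201 721153 (.cl 17905 786689 34377367809 (.lf 1 0 false false true 917761 917761 65793 1 true ⟨false, 8, 196865, 0x205020106010201060201⟩ ⟨true, 8, 1, 0x50206010501030101⟩ ⟨false, 8, 0xc0202010201030101,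 565157584437505⟩ ⟨true, 8, 3381006862516737, 131329⟩ (.out 8 21492662529 0x205090102020202030201) (.out 7 0x2050201060202010201030101 257) (.diff 8 262401 51556974849 ⟨false, 7, 566300045083137, 3378825018867969⟩ ⟨true, 8, 4223232769196289, 1409599693979905⟩) (.out 8 1408525951762689 0x205090102020202030101))))) (.br 138504684308511 (.cl 18928 0x50103010b01000102 721153 (.cl 18927 257 1689962274291969 (.cl 17935 917761 25787564289 (.mm 2 1 0 true true false 786689 721153 3 true ⟨false, 7, 0x205090102020202030101, 262401⟩ ⟨true, 8, 51556974849, 1408525951762689⟩ ⟨true, 8, 327937, 21492662529⟩ ⟨false, 8, 1, 0x2050201060102010202030101⟩ ⟨false, 7, 0x203090102010201030101, 21492662529⟩ ⟨true, 8, 1, 0x503060102010201030101⟩)))) (.zz 14897 false 8 257 65793 131329 0x2070201060102020203030101))) (.br 147438149175327 (.cl 18928 4312465665 655617 (.cl 17905 721153 34377302273 (.lf 1 0 false true true 852225 852225 257 2 false ⟨true, 8, 131329, 1409599693914369⟩ ⟨false, 7, 0x203020109010201020101, 3379907350823169⟩ ⟨false, 8, 0xc0202010201020101,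 565157584371969⟩ ⟨true, 8, 0x503060102010201020101, 1⟩ (.out 8 21492596993 0x205090102020202020201) (.out 7 0x2050201060202010201020101 0xc0105010002010101) (.out 7 0x204020109010202020101 3379920252305665) (.diff 8 196865 51556909313 ⟨false, 7, 0x203020109010201020101, 51556909313⟩ ⟨true, 8, 4223232769130753, 1409599693914369⟩)))) (.br 138504684308511 (.cl 15921 1689962274291969 257 (.cl 15920 721153 0x50103010b01000102 (.mm 1 0 2 false true false 721153 786689 1 false ⟨true, 8, 21492662529, 327937⟩ ⟨false, 7, 0x2050201060102010202030101, 1⟩ ⟨false, 8, 262401, 0x205090102020202030101⟩ ⟨true, 8, 1408525951762689, 51556974849⟩ ⟨false, 8, 21492662529, 0x203090102010201030101⟩ ⟨true, 8, 0x503060102010201030101, 1⟩))) (.zz 18927 true 7 65793 257 0x2060201060302010201030101 0xc0105010002020101))))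

noncomputable def dmm0A201_g : List LF := [[-2, 0, 0, 0, -1, 1], [-2, 0, 0, -1, 1, 1], [-2, 0, 0, 1, -1], [0, 0, 1, -1, 0, 0, 0, 0, -1]]

noncomputable def dmm0A201_d : Dat := mkD false (-1) 0 [] dmm0A201_g [] false

theorem dmm0A201_k : dmm0A201_d.chk dmm0A201_t = true := by decide +kernel

end Pool.Agent.H23.DT
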