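import Pool.Agent.H23.DT.Dat

/-! Decision tree (generated): sg -1 om -1 wrap 0 lab 0 -/

set_option linter.all false

namespace Pool.Agent.H23.DT

open Pool.Agent.H78.RT
open Pool.Agent.H81.AP (LF)

noncomputable def dmm0A41_t : T := (.br 147232024299551 (.br 35995387936 (.cl 16942 65793 1689957979259137 (.cl 17935 786689 25787433217 (.mm 3 1 0 false true false 590081 655617 9 true ⟨true, 8, 21492531457, 196865⟩ ⟨false, 7, 0x20409010201040201, 47261942017⟩ ⟨false, 8, 257, 0x204090102010002030101⟩ ⟨true, 8, 1, 3098423784308993⟩ ⟨false, 8, 21492531457, 0x2020c010001030101⟩ ⟨true, 8, 3379907350757633, 47261942017⟩))) (.br 562178014 (.cl 16942 131329 1689957979324673 (.mv 2 0 1 1 0 false ⟨false, 7, 0x205080100010201050201, 1⟩ ⟨true, 8, 3098423784374529, 1⟩ ⟨true, 8, 47262007553, 51556909313⟩ ⟨false, 8, 47262007553, 0x20409010201050201⟩ (.out 7 0x2020c010001040101 0xb0300010201050101) (.diff 7 8607891713 257 ⟨false, 9, 16777473, 0x20508020301050201⟩ ⟨true, 9, 16777473, 565183353782529⟩) (.out 7 0x204090102010002040101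 47262007553) (.out 8 65793 0x206080100020201050201))) (.br 151698756732959 (.cl 18928 34393489665 721153 (.cl 17935 917761 25787564289 (.lf 1 0 true true true 786689 786689 257 5 false ⟨true, 8, 131329, 1409595399078145⟩ ⟨false, 8, 0xb0300010201060101, 565200533455105⟩ ⟨false, 7, 65793, 0x504050100010201060101⟩ ⟨true, 8, 47262073089, 3379907350888705⟩ (.out 8 0x504050100010201060101 0xb02030103010001010101) (.out 8 21492662529 0x2030c010002050201) (.out 7 0x20409010201060201 3097341452419329) (.diff 8 262401 47262073089 ⟨true, 8, 0xb0300010201060101, 1⟩ ⟨false, 7, 0x2020c010301020101, 1409595399078145⟩)))) (.br 134244076750879 (.cl 15920 786689 2252955176665345 (.cl 15951 2252903637844225 257 (.mm 1 0 3 false false true 983297 786689 1 true ⟨false, 8, 327937, 0x204080103010002060101⟩ ⟨true, 8, 1, 3098423784505601⟩ ⟨true, 8, 0x60301010d02000102, 393473⟩ ⟨false, 7, 0x20408010301070201, 51557040385⟩ ⟨true, 8, 0x60301010d02000102, 4223224179458305⟩ ⟨false, 7, 0x20308010301070101, 51557040385⟩))) (.zz 18897 true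 8 65793 257 0x60601010202000102010501010101 0xb02030103010001020101))))) (.br 138710809184287 (.cl 17935 786689 25787433217 (.cl 17966 1971424366100737 257 (.mm 1 0 3 true false true 590081 786689 2 true ⟨true, 8, 196865, 21492531457⟩ ⟨false, 8, 1, 0x205080100010201040201⟩ ⟨false, 7, 0x204080103010002030101, 131329⟩ ⟨true, 8, 47261942017, 51556843777⟩ ⟨true, 8, 4223224179261697, 21492531457⟩ ⟨false, 8, 1, 0x204080100010201040101⟩))) (.zz 16942 true 7 257 65793 8607826177 0xb0600020202040201)))

noncomputable def dmm0A41_g : List LF := [[-2, 0, 0, 0, 1, -1], [-2, 0, 0, 1, -1], [0, 0, 1, -1, 0, 0, 0, 0, -1]]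

noncomputable def dmm0A41_d : Dat := mkD false (-1) 0 [] dmm0A41_g [] false

theorem dmm0A41_k : dmm0A41_d.chk dmm0A41_t = true := by decide +kernel

end Pool.Agent.H23.DT
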