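import Pool.Agent.H23.DT.Dat

/-! Decision tree (generated): sg 1 om -1 wrap 0 lab 0 -/

set_option linter.all false

namespace Pool.Agent.H23.DT

open Pool.Agent.H78.RT
open Pool.Agent.H81.AP (LF)

noncomputable def dpm0A201_t : T := (.br 151698756732959 (.br 511834208 (.cl 15920 655617 4312465665 (.lf 0 2 false false false 852225 65793 721153 1 false ⟨true, 8, 1409599693914369, 131329⟩ ⟨false, 7, 0x2050201060102010202020101, 1⟩ ⟨true, 8, 21492596993, 0xc0202010201020101⟩ ⟨false, 7, 0x203020109010201020101, 51556909313⟩ (.out 7 0x205090102020202020201 21492596993) (.out 7 257 0x504060202010201020101) (.diff 8 51556909313 196865 ⟨true, 8, 0x503060102010201020101, 1⟩ ⟨false, 8, 1409599693914369, 0x2020c010201020101⟩) (.out 8 3379920252305665 0x204020109010202020101))) (.cl 15920 655617 4312465665 (.lf 0 1 false true false 721153 65793 721153 6 true ⟨true, 8, 196865, 3379920252305665⟩ ⟨false, 7, 565200533389569, 0x503060102010201020101⟩ ⟨true, 9, 0xc02020102010101000101, 0x203090102010201020101⟩ ⟨false, 8, 51556909313, 0x203020109010201020101⟩ (.out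 7 0x205090102020202020201 0x2030901020102010101000101) (.diff 7 0x203090102010201020101 257 ⟨false, 8, 1, 0x2050201060102010202020101⟩ ⟨true, 9, 4311744769, 0x204090102020201020101⟩) (.out 7 0x2050201060102010202020201 51556909313) (.out 8 131329 0x2060201060102020202020101)))) (.br 138504684308511 (.cl 18928 1690005223244033 655617 (.cl 18927 257 1689962274226433 (.cl 17935 852225 25787498753 (.mm 2 1 0 true true false 721153 655617 3 true ⟨false, 7, 0x205090102020202020101, 196865⟩ ⟨true, 8, 51556909313, 1408525951697153⟩ ⟨true, 8, 262401, 21492596993⟩ ⟨false, 8, 1, 0x2050201060102010202020101⟩ ⟨false, 7, 0x203090102010201020101, 21492596993⟩ ⟨true, 8, 1, 0x503060102010201020101⟩)))) (.br 35979130911 (.br 138710809184287 (.cl 17935 983297 25787629825 (.cl 17966 1971424366297345 257 (.mn 1 0 3 false false true 786689 983297 1 true ⟨false, 8, 393473, 0x20402010901070201⟩ ⟨true, 8, 1, 0x50206010501040101⟩ ⟨false, 8, 262401, 0x205020106010201070201⟩ ⟨false, 7, 0x204020109010202040101, 51557040385⟩ ⟨true, 8, 0xc0202010201040101, 21492728065⟩ ⟨false,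 7, 566300045148673, 3378833608737025⟩ (.out 7 0x2040201060102010201040101 0xc0202010201040101) (.out 7 8608022785 0x505060102020202040201) (.diff 8 51557040385 327937 ⟨true, 8, 3381006862582273, 65793⟩ ⟨false, 8, 0xc0302020201040101, 564109611696385⟩) (.out 8 3379920252436737 0x204020109010202040101)))) (.zz 18927 false 7 8606712065 131329 0x2070201060102020203040101 65793)) (.br 147438149175327 (.cl 18928 2252942291960065 786689 (.cl 17905 852225 34377433345 (.lf 1 0 false true true 983297 983297 257 2 false ⟨true, 8, 262401, 1409599694045441⟩ ⟨false, 7, 0x203020109010201040101, 3379907350954241⟩ ⟨false, 8, 0xc0202010201040101, 565157584503041⟩ ⟨true, 8, 0x503060102010201040101, 1⟩ (.out 8 21492728065 0x205090102020202040201) (.out 7 0x2050201060202010201040101 0xc0105010202010101) (.out 7 0x204020109010202040101 3379920252436737) (.diff 8 327937 51557040385 ⟨false, 7, 0x203020109010201040101, 51557040385⟩ ⟨true, 8, 4223232769261825, 1409599694045441⟩)))) (.zz 18927 true 7 257 131329 0x2060201060302010201040101 0xc0105010202010101)))))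

noncomputable def dpm0A201_g : List LF := [[-2, 0, 0, 0, -1, 1], [-2, 0, 0, -1, 1, 1], [-2, 0, 0, 1, -1], [0, 0, 1, -1, 0, 0, 0, 0, -1]]

noncomputable def dpm0A201_d : Dat := mkD true (-1) 0 [] dpm0A201_g [] false

theorem dpm0A201_k : dpm0A201_d.chk dpm0A201_t = true := by decide +kernel

end Pool.Agent.H23.DT
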