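import Pool.Agent.H23.DT.K
import Pool.Agent.H23.DT.dpm1A
import Pool.Agent.H23.DT.dmm1A
import Pool.Agent.H23.DT.dpm1Ba
import Pool.Agent.H23.DT.dmm1Ba
import Pool.Agent.H23.DT.dpm1Bb
import Pool.Agent.H23.DT.dmm1Bb
import Pool.Agent.H23.DT.dpm1Cq1
import Pool.Agent.H23.DT.dmm1Cq1
import Pool.Agent.H23.DT.dpm1Cq2
import Pool.Agent.H23.DT.dmm1Cq2
import Pool.Agent.H23.DT.dpm1Cq3
import Pool.Agent.H23.DT.dmm1Cq3
import Pool.Agent.H23.DT.dpm1Cq4
import Pool.Agent.H23.DT.dmm1Cq4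

/-!
# Double ties: the regions (generated)
-/

set_option linter.all false

namespace Pool.Agent.H23.DT

open Pool.Agent.H78.RT
open Pool.Agent.H78.Tie
open Pool.Agent.H81.AP (LF dot dot_nil dot_nil' dot_cons AllNn AllNe)

variable {A : TAp} {T T' : A.Tie}

theorem rm1A (d : DD A T T' (-1) 1) (h : (A.h : ℤ) < A.w) : False := by
  have hq := A.q_pos'
  have e1 := mul_le_mul_of_nonneg_left (show (A.h : ℤ) + 1 ≤ A.w by omega) hq.le
  rw [mul_add, mul_one] at e1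
  rcases A.hsg with hs | hs
  · refine d.run (sp := true) hs (J := []) (g := dpm1A_g) (ne := [])
      (ov := false) (r := []) trivial ?_ trivial (fun h => by cases h) dpm1A_k
    unfold dpm1A_g env
    simp only [AllNn, dot_cons, dot_nil, mul_one]
    refine ⟨?_, trivial⟩ <;> linarith
  · refine d.run (sp := false) hs (J := []) (g := dmm1A_g) (ne := [])
      (ov := false) (r := []) trivial ?_ trivial (fun h => by cases h) dmm1A_k
    unfold dmm1A_g env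
    simp only [AllNn, dot_cons, dot_nil, mul_one]
    refine ⟨?_, trivial⟩ <;> linarith

theorem rm1Ba (d : DD A T T' (-1) 1) (h : (A.w : ℤ) ≤ A.h) (h1 : A.D + 2 ≤ A.q * A.w)
    {j s c : ℤ} (hj : IsC A j (th A j - A.q * c) (A.q * s) (th A j))
    (hc : c = 0) (s0 : -(A.p : ℤ) ≤ 2 * s) (s1 : 2 * s ≤ A.p) : False := by
  have hq := A.q_pos'
  have e1 := mul_le_mul_of_nonneg_left h hq.le
  have t0 := th_pos A hj.2.1
  have t1 := th_ltD A hj.2.2
  subst hc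
  have f0 := mul_le_mul_of_nonneg_left s0 hq.le
  have f1 := mul_le_mul_of_nonneg_left s1 hq.le
  have f2 : (A.q : ℤ) * -(A.p : ℤ) = -NN A := by unfold NN; ring
  have f3 : (A.q : ℤ) * (A.p : ℤ) = NN A := by unfold NN; ring
  have f4 : (A.q : ℤ) * (2 * s) = 2 * (A.q * s) := by ring
  rw [f2, f4] at f0
  rw [f3, f4] at f1
  rcases A.hsg with hs | hs
  · refine d.run (sp := true) hs (J := [⟨[0, 0, 0, 0, 0, 0, 0, 0, 0, 1], [0, 0, 0, 0, 0, 0, 0, 0, 0, 0, 1], [0, 0, 0, 0, 0, 0, 0, 0, 0, 1]⟩]) (g := dpm1Ba_g) (ne := [])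
      (ov := false) (r := [th A j, A.q * s]) ⟨⟨j, by
        unfold LR.Cl env
        simp only [dot_cons, dot_nil]
        convert hj using 1 <;> ring⟩, trivial⟩ ?_ trivial (fun h => by cases h) dpm1Ba_k
    unfold dpm1Ba_g env
    simp only [AllNn, dot_cons, dot_nil, mul_one]
    refine ⟨?_, ?_, ?_, ?_, ?_, ?_, trivial⟩ <;> linarith
  · refine d.run (sp := false) hs (J := [⟨[0, 0, 0, 0, 0, 0, 0, 0, 0, 1], [0, 0, 0, 0, 0, 0, 0, 0, 0, 0, 1], [0, 0, 0, 0, 0, 0, 0, 0, 0, 1]⟩]) (g := dmm1Ba_g) (ne := [])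
      (ov := false) (r := [th A j, A.q * s]) ⟨⟨j, by
        unfold LR.Cl env
        simp only [dot_cons, dot_nil]
        convert hj using 1 <;> ring⟩, trivial⟩ ?_ trivial (fun h => by cases h) dmm1Ba_k
    unfold dmm1Ba_g env
    simp only [AllNn, dot_cons, dot_nil, mul_one]
    refine ⟨?_, ?_, ?_, ?_, ?_, ?_, trivial⟩ <;> linarith

theorem rm1Bb (d : DD A T T' (-1) 1) (h : (A.w : ℤ) ≤ A.h) (h1 : A.D + 2 ≤ A.q * A.w)
    {j s c : ℤ} (hj : IsC A j (th A j - A.q * c) (A.q * s) (th A j))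
    (hc : c = A.w) (s0 : -(A.p : ℤ) ≤ 2 * s) (s1 : 2 * s ≤ A.p) : False := by
  have hq := A.q_pos'
  have e1 := mul_le_mul_of_nonneg_left h hq.le
  have t0 := th_pos A hj.2.1
  have t1 := th_ltD A hj.2.2
  subst hc
  have f0 := mul_le_mul_of_nonneg_left s0 hq.le
  have f1 := mul_le_mul_of_nonneg_left s1 hq.le
  have f2 : (A.q : ℤ) * -(A.p : ℤ) = -NN A := by unfold NN; ring
  have f3 : (A.q : ℤ) * (A.p : ℤ) = NN A := by unfold NN; ring
  have f4 : (A.q : ℤ) * (2 * s) = 2 * (A.q * s) := by ring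
  rw [f2, f4] at f0
  rw [f3, f4] at f1
  rcases A.hsg with hs | hs
  · refine d.run (sp := true) hs (J := [⟨[0, 0, -1, 0, 0, 0, 0, 0, 0, 1], [0, 0, 0, 0, 0, 0, 0, 0, 0, 0, 1], [0, 0, 0, 0, 0, 0, 0, 0, 0, 1]⟩]) (g := dpm1Bb_g) (ne := [])
      (ov := false) (r := [th A j, A.q * s]) ⟨⟨j, by
        unfold LR.Cl env
        simp only [dot_cons, dot_nil]
        convert hj using 1 <;> ring⟩, trivial⟩ ?_ trivial (fun h => by cases h) dpm1Bb_k
    unfold dpm1Bb_g env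
    simp only [AllNn, dot_cons, dot_nil, mul_one]
    refine ⟨?_, ?_, ?_, ?_, ?_, ?_, trivial⟩ <;> linarith
  · refine d.run (sp := false) hs (J := [⟨[0, 0, -1, 0, 0, 0, 0, 0, 0, 1], [0, 0, 0, 0, 0, 0, 0, 0, 0, 0, 1], [0, 0, 0, 0, 0, 0, 0, 0, 0, 1]⟩]) (g := dmm1Bb_g) (ne := [])
      (ov := false) (r := [th A j, A.q * s]) ⟨⟨j, by
        unfold LR.Cl env
        simp only [dot_cons, dot_nil]
        convert hj using 1 <;> ring⟩, trivial⟩ ?_ trivial (fun h => by cases h) dmm1Bb_k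
    unfold dmm1Bb_g env
    simp only [AllNn, dot_cons, dot_nil, mul_one]
    refine ⟨?_, ?_, ?_, ?_, ?_, ?_, trivial⟩ <;> linarith

theorem rm1Cq1 (d : DD A T T' (-1) 1) (h : (A.w : ℤ) ≤ A.h) (h1 : A.q * A.w + 2 ≤ A.D)
    {j U S : ℤ} (hj : IsC A j U S (th A j))
    (n1 : th A j ≠ th A T.t) (n2 : th A j ≠ th A A.q - th A T.t)
    (u0 : -(A.q * A.w) + 2 ≤ U) (u1 : U + 2 ≤ 0) (v0 : -(A.q * A.h) + 2 ≤ U + S) (v1 : U + S + 2 ≤ 0) : False := by
  have hq := A.q_pos'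
  have e1 := mul_le_mul_of_nonneg_left h hq.le
  have t0 := th_pos A hj.2.1
  have t1 := th_ltD A hj.2.2
  rcases A.hsg with hs | hs
  · refine d.run (sp := true) hs (J := [⟨[0, 0, 0, 0, 0, 0, 0, 0, 0, 0, 0, 1], [0, 0, 0, 0, 0, 0, 0, 0, 0, 0, 1], [0, 0, 0, 0, 0, 0, 0, 0, 0, 1]⟩]) (g := dpm1Cq1_g) (ne := [[0, 0, 0, 0, 0, 0, -1, 0, 0, 1], [0, 0, 0, 0, 0, 0, 1, -1, 0, 1]])
      (ov := false) (r := [th A j, S, U]) ⟨⟨j, by
        unfold LR.Cl env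
        simp only [dot_cons, dot_nil]
        convert hj using 1 <;> ring⟩, trivial⟩ ?_ (by
        unfold env
        simp only [AllNe, dot_cons, dot_nil, mul_one]
        exact ⟨fun h => n1 (by linarith), fun h => n2 (by linarith), trivial⟩) (fun h => by cases h) dpm1Cq1_k
    unfold dpm1Cq1_g env
    simp only [AllNn, dot_cons, dot_nil, mul_one]
    refine ⟨?_, ?_, ?_, ?_, ?_, ?_, ?_, ?_, trivial⟩ <;> linarith
  · refine d.run (sp := false) hs (J := [⟨[0, 0, 0, 0, 0, 0, 0, 0, 0, 0, 0, 1], [0, 0, 0, 0, 0, 0, 0, 0, 0, 0, 1], [0, 0, 0, 0, 0, 0, 0, 0, 0, 1]⟩]) (g := dmm1Cq1_g) (ne := [[0, 0, 0, 0, 0, 0, -1, 0, 0, 1], [0, 0, 0, 0, 0, 0, 1, -1, 0, 1]])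
      (ov := false) (r := [th A j, S, U]) ⟨⟨j, by
        unfold LR.Cl env
        simp only [dot_cons, dot_nil]
        convert hj using 1 <;> ring⟩, trivial⟩ ?_ (by
        unfold env
        simp only [AllNe, dot_cons, dot_nil, mul_one]
        exact ⟨fun h => n1 (by linarith), fun h => n2 (by linarith), trivial⟩) (fun h => by cases h) dmm1Cq1_k
    unfold dmm1Cq1_g env
    simp only [AllNn, dot_cons, dot_nil, mul_one]
    refine ⟨?_, ?_, ?_, ?_, ?_, ?_, ?_, ?_, trivial⟩ <;> linarith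

theorem rm1Cq2 (d : DD A T T' (-1) 1) (h : (A.w : ℤ) ≤ A.h) (h1 : A.q * A.w + 2 ≤ A.D)
    {j U S : ℤ} (hj : IsC A j U S (th A j))
    (n1 : th A j ≠ th A T.t) (n2 : th A j ≠ th A A.q - th A T.t)
    (u0 : 2 ≤ U) (u1 : U + 2 ≤ A.q * A.w) (v0 : -(A.q * A.h) + 2 ≤ U + S) (v1 : U + S + 2 ≤ 0) : False := by
  have hq := A.q_pos'
  have e1 := mul_le_mul_of_nonneg_left h hq.le
  have t0 := th_pos A hj.2.1
  have t1 := th_ltD A hj.2.2
  rcases A.hsg with hs | hs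
  · refine d.run (sp := true) hs (J := [⟨[0, 0, 0, 0, 0, 0, 0, 0, 0, 0, 0, 1], [0, 0, 0, 0, 0, 0, 0, 0, 0, 0, 1], [0, 0, 0, 0, 0, 0, 0, 0, 0, 1]⟩]) (g := dpm1Cq2_g) (ne := [[0, 0, 0, 0, 0, 0, -1, 0, 0, 1], [0, 0, 0, 0, 0, 0, 1, -1, 0, 1]])
      (ov := false) (r := [th A j, S, U]) ⟨⟨j, by
        unfold LR.Cl env
        simp only [dot_cons, dot_nil]
        convert hj using 1 <;> ring⟩, trivial⟩ ?_ (by
        unfold env
        simp only [AllNe, dot_cons, dot_nil, mul_one]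
        exact ⟨fun h => n1 (by linarith), fun h => n2 (by linarith), trivial⟩) (fun h => by cases h) dpm1Cq2_k
    unfold dpm1Cq2_g env
    simp only [AllNn, dot_cons, dot_nil, mul_one]
    refine ⟨?_, ?_, ?_, ?_, ?_, ?_, ?_, ?_, trivial⟩ <;> linarith
  · refine d.run (sp := false) hs (J := [⟨[0, 0, 0, 0, 0, 0, 0, 0, 0, 0, 0, 1], [0, 0, 0, 0, 0, 0, 0, 0, 0, 0, 1], [0, 0, 0, 0, 0, 0, 0, 0, 0, 1]⟩]) (g := dmm1Cq2_g) (ne := [[0, 0, 0, 0, 0, 0, -1, 0, 0, 1], [0, 0, 0, 0, 0, 0, 1, -1, 0, 1]])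
      (ov := false) (r := [th A j, S, U]) ⟨⟨j, by
        unfold LR.Cl env
        simp only [dot_cons, dot_nil]
        convert hj using 1 <;> ring⟩, trivial⟩ ?_ (by
        unfold env
        simp only [AllNe, dot_cons, dot_nil, mul_one]
        exact ⟨fun h => n1 (by linarith), fun h => n2 (by linarith), trivial⟩) (fun h => by cases h) dmm1Cq2_k
    unfold dmm1Cq2_g env
    simp only [AllNn, dot_cons, dot_nil, mul_one]
    refine ⟨?_, ?_, ?_, ?_, ?_, ?_, ?_, ?_, trivial⟩ <;> linarith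

theorem rm1Cq3 (d : DD A T T' (-1) 1) (h : (A.w : ℤ) ≤ A.h) (h1 : A.q * A.w + 2 ≤ A.D)
    {j U S : ℤ} (hj : IsC A j U S (th A j))
    (n1 : th A j ≠ th A T.t) (n2 : th A j ≠ th A A.q - th A T.t)
    (u0 : -(A.q * A.w) + 2 ≤ U) (u1 : U + 2 ≤ 0) (v0 : 2 ≤ U + S) (v1 : U + S + 2 ≤ A.q * A.h) : False := by
  have hq := A.q_pos'
  have e1 := mul_le_mul_of_nonneg_left h hq.le
  have t0 := th_pos A hj.2.1
  have t1 := th_ltD A hj.2.2
  rcases A.hsg with hs | hs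
  · refine d.run (sp := true) hs (J := [⟨[0, 0, 0, 0, 0, 0, 0, 0, 0, 0, 0, 1], [0, 0, 0, 0, 0, 0, 0, 0, 0, 0, 1], [0, 0, 0, 0, 0, 0, 0, 0, 0, 1]⟩]) (g := dpm1Cq3_g) (ne := [[0, 0, 0, 0, 0, 0, -1, 0, 0, 1], [0, 0, 0, 0, 0, 0, 1, -1, 0, 1]])
      (ov := false) (r := [th A j, S, U]) ⟨⟨j, by
        unfold LR.Cl env
        simp only [dot_cons, dot_nil]
        convert hj using 1 <;> ring⟩, trivial⟩ ?_ (by
        unfold env
        simp only [AllNe, dot_cons, dot_nil, mul_one]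
        exact ⟨fun h => n1 (by linarith), fun h => n2 (by linarith), trivial⟩) (fun h => by cases h) dpm1Cq3_k
    unfold dpm1Cq3_g env
    simp only [AllNn, dot_cons, dot_nil, mul_one]
    refine ⟨?_, ?_, ?_, ?_, ?_, ?_, ?_, ?_, trivial⟩ <;> linarith
  · refine d.run (sp := false) hs (J := [⟨[0, 0, 0, 0, 0, 0, 0, 0, 0, 0, 0, 1], [0, 0, 0, 0, 0, 0, 0, 0, 0, 0, 1], [0, 0, 0, 0, 0, 0, 0, 0, 0, 1]⟩]) (g := dmm1Cq3_g) (ne := [[0, 0, 0, 0, 0, 0, -1, 0, 0, 1], [0, 0, 0, 0, 0, 0, 1, -1, 0, 1]])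
      (ov := false) (r := [th A j, S, U]) ⟨⟨j, by
        unfold LR.Cl env
        simp only [dot_cons, dot_nil]
        convert hj using 1 <;> ring⟩, trivial⟩ ?_ (by
        unfold env
        simp only [AllNe, dot_cons, dot_nil, mul_one]
        exact ⟨fun h => n1 (by linarith), fun h => n2 (by linarith), trivial⟩) (fun h => by cases h) dmm1Cq3_k
    unfold dmm1Cq3_g env
    simp only [AllNn, dot_cons, dot_nil, mul_one]
    refine ⟨?_, ?_, ?_, ?_, ?_, ?_, ?_, ?_, trivial⟩ <;> linarith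

theorem rm1Cq4 (d : DD A T T' (-1) 1) (h : (A.w : ℤ) ≤ A.h) (h1 : A.q * A.w + 2 ≤ A.D)
    {j U S : ℤ} (hj : IsC A j U S (th A j))
    (n1 : th A j ≠ th A T.t) (n2 : th A j ≠ th A A.q - th A T.t)
    (u0 : 2 ≤ U) (u1 : U + 2 ≤ A.q * A.w) (v0 : 2 ≤ U + S) (v1 : U + S + 2 ≤ A.q * A.h) : False := by
  have hq := A.q_pos'
  have e1 := mul_le_mul_of_nonneg_left h hq.le
  have t0 := th_pos A hj.2.1
  have t1 := th_ltD A hj.2.2
  rcases A.hsg with hs | hs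
  · refine d.run (sp := true) hs (J := [⟨[0, 0, 0, 0, 0, 0, 0, 0, 0, 0, 0, 1], [0, 0, 0, 0, 0, 0, 0, 0, 0, 0, 1], [0, 0, 0, 0, 0, 0, 0, 0, 0, 1]⟩]) (g := dpm1Cq4_g) (ne := [[0, 0, 0, 0, 0, 0, -1, 0, 0, 1], [0, 0, 0, 0, 0, 0, 1, -1, 0, 1]])
      (ov := false) (r := [th A j, S, U]) ⟨⟨j, by
        unfold LR.Cl env
        simp only [dot_cons, dot_nil]
        convert hj using 1 <;> ring⟩, trivial⟩ ?_ (by
        unfold env
        simp only [AllNe, dot_cons, dot_nil, mul_one]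
        exact ⟨fun h => n1 (by linarith), fun h => n2 (by linarith), trivial⟩) (fun h => by cases h) dpm1Cq4_k
    unfold dpm1Cq4_g env
    simp only [AllNn, dot_cons, dot_nil, mul_one]
    refine ⟨?_, ?_, ?_, ?_, ?_, ?_, ?_, ?_, trivial⟩ <;> linarith
  · refine d.run (sp := false) hs (J := [⟨[0, 0, 0, 0, 0, 0, 0, 0, 0, 0, 0, 1], [0, 0, 0, 0, 0, 0, 0, 0, 0, 0, 1], [0, 0, 0, 0, 0, 0, 0, 0, 0, 1]⟩]) (g := dmm1Cq4_g) (ne := [[0, 0, 0, 0, 0, 0, -1, 0, 0, 1], [0, 0, 0, 0, 0, 0, 1, -1, 0, 1]])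
      (ov := false) (r := [th A j, S, U]) ⟨⟨j, by
        unfold LR.Cl env
        simp only [dot_cons, dot_nil]
        convert hj using 1 <;> ring⟩, trivial⟩ ?_ (by
        unfold env
        simp only [AllNe, dot_cons, dot_nil, mul_one]
        exact ⟨fun h => n1 (by linarith), fun h => n2 (by linarith), trivial⟩) (fun h => by cases h) dmm1Cq4_k
    unfold dmm1Cq4_g env
    simp only [AllNn, dot_cons, dot_nil, mul_one]
    refine ⟨?_, ?_, ?_, ?_, ?_, ?_, ?_, ?_, trivial⟩ <;> linarith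

end Pool.Agent.H23.DT
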