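import Pool.Agent.H23.DT.K

/-!
# Double ties without overlaps: no wrap, by counting in the columns
-/

namespace Pool.Agent.H23.DT

open Finset
open Pool.Agent.H98.Flat
open Pool.Agent.H78.RT
open Pool.Agent.H78.Tie
open Pool.Agent.H78.Tie.TAp

variable {A : TAp} {T T' : A.Tie} {om wr : ℤ}

/-- number of rectangles which meet a column -/
def nC (C : Cfg) (u : ℤ) : ℤ := ∑ k ∈ range C.p, C.hor k u

theorem sum_R (C : Cfg) (u : ℤ) : ∑ v ∈ range (C.p * C.q), C.R u v = nC C u * C.H := by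
  unfold Cfg.R nC
  rw [Finset.sum_comm, Finset.sum_mul]
  refine Finset.sum_congr rfl fun k _ => ?_
  rw [← Finset.mul_sum]
  congr 1
  unfold Cfg.ver
  rw [← C.N_eq]
  exact sum_ph _ C.n_pos _ _ C.H_pos.le (by rw [C.N_eq]; exact C.H_lt.le)

/-- a visible column meets at most `N / H` rectangles -/
theorem nC_le {C : Cfg} {sg : ℤ} (S : SC C sg) {u : ℤ} (hu : sg = 1 ∨ ¬ (C.p : ℤ) ∣ u) :
    nC C u * C.H ≤ C.N := by
  rw [← sum_R]
  have h1 : ∀ v ∈ range (C.p * C.q), C.R u v ≤ 1 := by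
    intro v _
    by_cases hk : ∃ k, C.In k u v
    · obtain ⟨k, hk⟩ := hk
      apply R_le_of (a := k)
      intro j hj
      by_contra hc
      obtain ⟨h1, h2⟩ := S.dj j k u v hc hj hk
      rcases hu with h | h
      · omega
      · exact h h2
    · rw [R_zero_of (by push Not at hk; exact hk)]
      norm_num
  calc ∑ v ∈ range (C.p * C.q), C.R u v ≤ ∑ _v ∈ range (C.p * C.q), 1 := by
        exact Finset.sum_le_sum h1
    _ = C.N := by rw [Finset.sum_const, Finset.card_range, nsmul_eq_mul, mul_one, C.N_eq]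

/-- the chosen columns -/
def col (A : TAp) (m : ℤ) : ℤ := A.p * m + (if A.sg = 1 then 0 else 1)

/-- walls at the chosen columns -/
theorem hor_col (A : TAp) {M : ℤ} (hM : A.q * (A.w : ℤ) + A.sg = A.p * M) {k o : ℤ}
    (ho : (A.cfg 0).U k = A.p * o) (m : ℤ) : (A.cfg 0).hor k (col A m) = ph A.q o M m := by
  have hp := A.p_pos'
  have hq := A.q_pos'
  have p3 : (3 : ℤ) ≤ A.p := by have := A.w2; have := A.hw; omega
  have e0 := Int.emod_nonneg (m - o) hq.ne'
  have e1 := Int.emod_lt_of_pos (m - o) hq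
  have he := Int.emod_add_mul_ediv (m - o) A.q
  have hN : (A.cfg 0).N = A.p * A.q := rfl
  have hW : (A.cfg 0).W = A.q * A.w := rfl
  unfold Cfg.hor ph
  rw [ho, hN, hW]
  set r : ℤ := if A.sg = 1 then 0 else 1 with hr
  have hr2 : (r = 0 ∧ A.sg = 1) ∨ (r = 1 ∧ A.sg = -1) := by
    rcases A.hsg with h | h
    · left; rw [hr, if_pos h]; exact ⟨rfl, h⟩
    · right; rw [hr, if_neg (by omega)]; exact ⟨rfl, h⟩
  have e2 : col A m - A.p * o = A.p * ((m - o) % A.q) + r + A.p * A.q * ((m - o) / A.q) := by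
    unfold col
    rw [← hr]
    linear_combination (-(A.p : ℤ)) * he
  have l0 : 0 ≤ (A.p : ℤ) * ((m - o) % A.q) := mul_nonneg hp.le e0
  have l1 : (A.p : ℤ) * ((m - o) % A.q + 1) ≤ A.p * A.q :=
    mul_le_mul_of_nonneg_left (by omega) hp.le
  rw [mul_add, mul_one] at l1
  have e3 : (col A m - A.p * o) % (A.p * A.q) = A.p * ((m - o) % A.q) + r := by
    rw [e2, Int.add_mul_emod_self_left]
    exact Int.emod_eq_of_lt (by omega) (by omega)
  rw [e3]
  have key : A.p * ((m - o) % A.q) + r < A.q * A.w ↔ (m - o) % A.q < M := by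
    constructor
    · intro h
      by_contra hc
      have : (A.p : ℤ) * M ≤ A.p * ((m - o) % A.q) := mul_le_mul_of_nonneg_left (by omega) hp.le
      omega
    · intro h
      have : (A.p : ℤ) * ((m - o) % A.q + 1) ≤ A.p * M :=
        mul_le_mul_of_nonneg_left (by omega) hp.le
      rw [mul_add, mul_one] at this
      omega
  simp only [key]

theorem vis_col (A : TAp) (m : ℤ) : A.sg = 1 ∨ ¬ (A.p : ℤ) ∣ col A m := by
  rcases A.hsg with h | h
  · exact Or.inl h
  · right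
    intro hc
    unfold col at hc
    rw [if_neg (by omega)] at hc
    have h1 := (Int.dvd_add_right (dvd_mul_right (A.p : ℤ) m)).1 hc
    have := Int.le_of_dvd (by norm_num) h1
    have := A.w2; have := A.hw
    omega

/-- the sum over the chosen columns -/
theorem sum_col (A : TAp) {M : ℤ} (hM : A.q * (A.w : ℤ) + A.sg = A.p * M) :
    ∑ m ∈ range A.q, nC (A.cfg 0) (col A m) = A.q * (A.w : ℤ) + A.sg := by
  have hp := A.p_pos'
  have hq := A.q_pos'
  have hw : (2 : ℤ) ≤ A.w := by exact_mod_cast A.hw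
  have w2 : 2 * (A.w : ℤ) < A.p := by exact_mod_cast A.w2
  have hs := A.hsg
  have q6 := q6 A
  have M0 : 0 ≤ M := by
    by_contra hc
    have : (A.p : ℤ) * M ≤ A.p * (-1) := mul_le_mul_of_nonneg_left (by omega) hp.le
    have : (A.q : ℤ) * 2 ≤ A.q * A.w := mul_le_mul_of_nonneg_left hw hq.le
    omega
  have M1 : M ≤ A.q := by
    by_contra hc
    have h1 : (A.p : ℤ) * (A.q + 1) ≤ A.p * M := mul_le_mul_of_nonneg_left (by omega) hp.le
    have h2 : (A.q : ℤ) * (A.w + 1) ≤ A.q * A.p := mul_le_mul_of_nonneg_left (by omega) hq.le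
    rw [mul_add, mul_one] at h1 h2
    have h3 : (A.q : ℤ) * A.p = A.p * A.q := mul_comm _ _
    omega
  unfold nC
  rw [Finset.sum_comm]
  have h1 : ∀ k ∈ range (A.cfg 0).p, ∑ m ∈ range A.q, (A.cfg 0).hor k (col A m) = M := by
    intro k _
    obtain ⟨o, ho⟩ := A.U_dvd 0 k
    simp_rw [hor_col A hM ho]
    exact sum_ph A.q (by omega) o M M0 M1
  rw [Finset.sum_congr rfl h1, Finset.sum_const, Finset.card_range, hM]
  change A.p • M = A.p * M
  rw [nsmul_eq_mul]

/-- at the right end of a rectangle without right partner the count decreases -/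
theorem drop (A : TAp) {M : ℤ} (hM : A.q * (A.w : ℤ) + A.sg = A.p * M) {t : ℤ}
    (ht : (A.p : ℤ) * A.q ∣ A.a * t - (A.q * A.w + A.sg)) {k o : ℤ}
    (ho : (A.cfg 0).U k = A.p * o) (h1 : A.p ≤ A.ix k + t) (h2 : A.ix k + t < A.q) :
    nC (A.cfg 0) (col A (o + M)) + 1 ≤ nC (A.cfg 0) (col A (o + M - 1)) := by
  have hp := A.p_pos'
  have hq := A.q_pos'
  have hw : (2 : ℤ) ≤ A.w := by exact_mod_cast A.hw
  have w2 : 2 * (A.w : ℤ) < A.p := by exact_mod_cast A.w2
  have hs := A.hsg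
  have q6 := q6 A
  have M0 : 0 ≤ M := by
    by_contra hc
    have : (A.p : ℤ) * M ≤ A.p * (-1) := mul_le_mul_of_nonneg_left (by omega) hp.le
    have : (A.q : ℤ) * 2 ≤ A.q * A.w := mul_le_mul_of_nonneg_left hw hq.le
    omega
  have M1 : M ≤ A.q := by
    by_contra hc
    have h1 : (A.p : ℤ) * (A.q + 1) ≤ A.p * M := mul_le_mul_of_nonneg_left (by omega) hp.le
    have h2 : (A.q : ℤ) * (A.w + 1) ≤ A.q * A.p := mul_le_mul_of_nonneg_left (by omega) hq.le
    rw [mul_add, mul_one] at h1 h2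
    have h3 : (A.q : ℤ) * A.p = A.p * A.q := mul_comm _ _
    omega
  -- no rectangle starts at this column
  have un : ∀ j : ℤ, ∀ o' : ℤ, (A.cfg 0).U j = A.p * o' → ¬ (A.q : ℤ) ∣ o + M - o' := by
    intro j o' ho' hc
    have h3 : (A.p : ℤ) * A.q ∣ A.p * (o + M - o') := mul_dvd_mul_left _ hc
    rw [show (A.p : ℤ) * (o + M - o') = A.p * o + A.p * M - A.p * o' by ring, ← ho, ← ho', ← hM,
      ix_U, ix_U] at h3
    have h4 := dvd_add h3 ht
    rw [show A.a * A.ix k + (A.q * A.w + A.sg) - A.a * A.ix j + (A.a * t - (A.q * A.w + A.sg))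
      = A.a * (A.ix k + t - A.ix j) by ring] at h4
    have h5 := dvd_of A ((dvd_mul_left (A.q : ℤ) A.p).trans h4)
    have j0 := A.ix_nonneg j
    have j1 := A.ix_lt j
    exact not_dvd_small (by omega) (by omega) h5
  unfold nC
  rw [← sub_nonneg, ← sub_sub, ← Finset.sum_sub_distrib]
  have h3 : ∀ j : ℤ, (A.cfg 0).hor j (col A (o + M - 1)) - (A.cfg 0).hor j (col A (o + M))
      = dv A.q (o + M - ((A.cfg 0).U j / A.p + M)) := by
    intro j
    obtain ⟨o', ho'⟩ := A.U_dvd 0 j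
    rw [ho', Int.mul_ediv_cancel_left _ hp.ne', hor_col A hM ho', hor_col A hM ho']
    have h4 := ph_jump (N := A.q) (a := o') (L := M) hq M0 M1 (o + M)
    rw [dv_not (un j o' ho')] at h4
    rw [show o + M - (o' + M) = o + M - o' - M by ring]
    omega
  simp_rw [h3]
  rw [sub_nonneg]
  obtain ⟨i, hi, hki⟩ := (A.cfg 0).exists_mod k
  have h4 : dv A.q (o + M - ((A.cfg 0).U i / A.p + M)) = 1 := by
    apply dv_of
    obtain ⟨o', ho'⟩ := A.U_dvd 0 i
    rw [ho', Int.mul_ediv_cancel_left _ hp.ne']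
    have h5 := (A.cfg 0).U_congr hki
    rw [ho, ho'] at h5
    have h6 : (A.p : ℤ) * A.q ∣ A.p * (o - o') := by
      rw [mul_sub]; exact h5
    have h7 := (mul_dvd_mul_iff_left hp.ne').1 h6
    rwa [show o + M - (o' + M) = o - o' by ring]
  calc (1 : ℤ) = dv A.q (o + M - ((A.cfg 0).U i / A.p + M)) := h4.symm
    _ ≤ ∑ j ∈ range (A.cfg 0).p, dv A.q (o + M - ((A.cfg 0).U j / A.p + M)) :=
      Finset.single_le_sum (f := fun j : ℕ => dv (A.q : ℤ) (o + M - ((A.cfg 0).U j / A.p + M)))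
        (fun _ _ => dv_nonneg _ _) (Finset.mem_range.2 hi)

/-- no wrap without overlaps -/
theorem DD.wrap (d : DD A T T' om 1) (hn : T.NoOvD) : False := by
  have hp := A.p_pos'
  have hq := A.q_pos'
  have q6 := q6 A
  have hw : (2 : ℤ) ≤ A.w := by exact_mod_cast A.hw
  have w2 : 2 * (A.w : ℤ) < A.p := by exact_mod_cast A.w2
  have hh : (2 : ℤ) ≤ A.h := by exact_mod_cast A.hh
  have S := T.scD T' d.ht hn
  -- `p < 3 h`
  have p3 : (A.p : ℤ) < 3 * A.h := by
    have x0 := d.x0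
    have x1 := d.x1
    have y0 := d.y0
    have y1 := d.y1
    have hx := d.hx
    obtain rfl | rfl := d.om1 <;> omega
  have hN : (A.cfg 0).N = A.p * A.q := rfl
  have hH : (A.cfg 0).H = A.q * A.h := rfl
  have two : ∀ m, nC (A.cfg 0) (col A m) ≤ 2 := by
    intro m
    have h1 := nC_le S (u := col A m) (vis_col A m)
    rw [hN, hH] at h1
    by_contra hc
    have h2 : 3 * (A.q * (A.h : ℤ)) ≤ nC (A.cfg 0) (col A m) * (A.q * A.h) :=
      mul_le_mul_of_nonneg_right (by omega) (by positivity)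
    have h3 : (A.q : ℤ) * (A.p + 1) ≤ A.q * (3 * A.h) :=
      mul_le_mul_of_nonneg_left (by omega) hq.le
    nlinarith
  obtain ⟨M, hM⟩ := A.hpw
  have hsum := sum_col A hM
  have hs := A.hsg
  have hw2 : (A.w : ℤ) = 2 ∧ A.sg = -1 := by
    have h1 : ∑ m ∈ range A.q, nC (A.cfg 0) (col A m) ≤ ∑ _m ∈ range A.q, (2 : ℤ) :=
      Finset.sum_le_sum fun m _ => two m
    rw [hsum, Finset.sum_const, Finset.card_range, nsmul_eq_mul] at h1
    have h2 : (A.w : ℤ) = 2 := by
      by_contra hc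
      have : (A.q : ℤ) * 3 ≤ A.q * A.w := mul_le_mul_of_nonneg_left (by omega) hq.le
      omega
    rw [h2] at h1
    exact ⟨h2, by omega⟩
  obtain ⟨w2', sg'⟩ := hw2
  have ht : (A.p : ℤ) * A.q ∣ A.a * T.t - (A.q * A.w + A.sg) := by
    have := T.tie
    rwa [d.e1, one_mul] at this
  have pq : (A.p : ℤ) < A.q := by exact_mod_cast A.pq
  have qp2 : (A.p : ℤ) + 1 < A.q := by
    by_contra hc
    have hq1 : (A.q : ℤ) = A.p + 1 := by omega
    rw [w2', sg', hq1] at hM
    have h1 : (A.p : ℤ) ∣ 1 := ⟨M - 2, by linear_combination hM⟩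
    have := Int.le_of_dvd (by norm_num) h1
    omega
  have t0 := T.t0
  have tp := T.tp
  have t0' := T'.t0
  have tp' := T'.tp
  have hte := d.ht
  -- two rectangles without right partner
  have i1 : A.ix (A.e * (A.p - T.t)) = A.p - T.t :=
    A.ix_of (by omega) (by omega) (by rw [sub_self]; exact dvd_zero _)
  have i2 : A.ix (A.e * (A.p - T.t + 1)) = A.p - T.t + 1 := by
    refine A.ix_of (by omega) ?_ (by rw [sub_self]; exact dvd_zero _)
    by_contra hc
    have t1 := d.t1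
    omega
  obtain ⟨o1, ho1⟩ := A.U_dvd 0 (A.e * (A.p - T.t))
  obtain ⟨o2, ho2⟩ := A.U_dvd 0 (A.e * (A.p - T.t + 1))
  have d1 := drop A hM ht ho1 (by rw [i1]; omega) (by rw [i1]; omega)
  have d2 := drop A hM ht ho2 (by rw [i2]; omega) (by rw [i2]; omega)
  have c1 : nC (A.cfg 0) (col A (o1 + M)) ≤ 1 := by have := two (o1 + M - 1); omega
  have c2 : nC (A.cfg 0) (col A (o2 + M)) ≤ 1 := by have := two (o2 + M - 1); omega
  have hne : ¬ (A.q : ℤ) ∣ o1 - o2 := by
    intro hc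
    have h1 : (A.p : ℤ) * A.q ∣ A.p * (o1 - o2) := mul_dvd_mul_left _ hc
    rw [mul_sub, ← ho1, ← ho2, ix_U, ix_U, i1, i2,
      show A.a * (A.p - T.t) - A.a * (A.p - T.t + 1) = A.a * (-1) by ring] at h1
    have h2 := dvd_of A ((dvd_mul_left (A.q : ℤ) A.p).trans h1)
    rw [dvd_neg] at h2
    have := Int.le_of_dvd (by norm_num) h2
    omega
  -- periodicity
  have per : ∀ m, nC (A.cfg 0) (col A (m % A.q)) = nC (A.cfg 0) (col A m) := by
    intro m
    unfold nC
    refine Finset.sum_congr rfl fun k _ => ?_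
    obtain ⟨o, ho⟩ := A.U_dvd 0 k
    rw [hor_col A hM ho, hor_col A hM ho]
    apply ph_congr
    refine ⟨-(m / A.q), ?_⟩
    have := Int.emod_add_mul_ediv m A.q
    linear_combination this
  set m1 := ((o1 + M) % (A.q : ℤ)).toNat with hm1
  set m2 := ((o2 + M) % (A.q : ℤ)).toNat with hm2
  have a0 := Int.emod_nonneg (o1 + M) hq.ne'
  have a1 := Int.emod_lt_of_pos (o1 + M) hq
  have b0 := Int.emod_nonneg (o2 + M) hq.ne'
  have b1 := Int.emod_lt_of_pos (o2 + M) hq
  have k1 : (m1 : ℤ) = (o1 + M) % A.q := Int.toNat_of_nonneg a0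
  have k2 : (m2 : ℤ) = (o2 + M) % A.q := Int.toNat_of_nonneg b0
  have hm : m1 ≠ m2 := by
    intro hc
    apply hne
    have h1 : (o1 + M) % (A.q : ℤ) = (o2 + M) % A.q := by rw [← k1, ← k2, hc]
    have h3 := Int.dvd_of_emod_eq_zero (Int.emod_eq_emod_iff_emod_sub_eq_zero.1 h1)
    rwa [add_sub_add_right_eq_sub] at h3
  have h1 : ∑ m ∈ range A.q, (2 - nC (A.cfg 0) (col A m)) = 1 := by
    rw [Finset.sum_sub_distrib, hsum, Finset.sum_const, Finset.card_range, nsmul_eq_mul, w2', sg']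
    ring
  have h2 : ∑ m ∈ ({m1, m2} : Finset ℕ), (2 - nC (A.cfg 0) (col A m))
      ≤ ∑ m ∈ range A.q, (2 - nC (A.cfg 0) (col A m)) := by
    apply Finset.sum_le_sum_of_subset_of_nonneg
    · intro m hm
      simp only [Finset.mem_insert, Finset.mem_singleton] at hm
      rw [Finset.mem_range]
      rcases hm with rfl | rfl <;> omega
    · intro m _ _
      have := two m
      omega
  rw [Finset.sum_pair hm, h1, k1, k2, per, per] at h2
  omega

end Pool.Agent.H23.DT
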