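import Pool.Agent.H23.DT.Nrm
import Pool.Agent.H23.DT.Wr
import Pool.Agent.H23.DT.Rp0
import Pool.Agent.H23.DT.Rp1
import Pool.Agent.H23.DT.Rm0
import Pool.Agent.H23.DT.Rm1

/-!
# Double ties: assembly
-/

namespace Pool.Agent.H23.DT

open Pool.Agent.H78.RT
open Pool.Agent.H78.Tie
open Pool.Agent.H78.Tie.TAp

variable {A : TAp} {T T' : A.Tie} {om wr : ℤ}

/-- no wrap, `h < w` -/
theorem gt0 (d : DD A T T' om 0) (h : (A.h : ℤ) < A.w) : False := by
  obtain rfl | rfl := d.om1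
  · rcases d.Dgen A.h with g | g
    · by_cases hn : T.NoOvD
      · have k := d.Kx hn
        have := d.x0
        omega
      · obtain ⟨j, U, S, hj, n1, n2, u, v⟩ := d.exO hn
        rcases u with ⟨u0, u1⟩ | ⟨u0, u1⟩
        · rcases v with ⟨v0, v1⟩ | ⟨v0, v1⟩
          · exact rp0A5q4 d h g hj n1 n2 u0 u1 v0 v1
          · exact rp0A5q2 d h g hj n1 n2 u0 u1 v0 v1
        · rcases v with ⟨v0, v1⟩ | ⟨v0, v1⟩
          · exact rp0A5q3 d h g hj n1 n2 u0 u1 v0 v1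
          · exact rp0A5q1 d h g hj n1 n2 u0 u1 v0 v1
    · exact rp0A9 d h g
  · rcases d.Dgen A.h with g | g
    · obtain ⟨j, U, hj, s0, s1⟩ := exR A
      exact rm0A5r d h g hj s0 s1
    · rcases d.Dgen T.x with g1 | g1
      · exact rm0A41 d h g g1
      · rcases d.Dgen (A.h - T.x) with g2 | g2
        · rw [mul_sub] at g2
          exact rm0A201 d h g g1 g2
        · rw [mul_sub] at g2
          obtain ⟨j, s, c, hj, hc, s0, s1⟩ := exV A (c := 1) (by norm_num) (by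
            have := A.w2; have := A.hw; omega)
          rcases hc with hc | hc
          · exact rm0A17b d h g1 g2 hj hc s0 s1
          · exact rm0A17a d h g1 g2 hj hc s0 s1

/-- `h < w` -/
theorem gt (d : DD A T T' om wr) (h : (A.h : ℤ) < A.w) : False := by
  obtain rfl | rfl := d.hwr
  · exact gt0 d h
  · obtain rfl | rfl := d.om1
    · exact rp1A d h
    · exact rm1A d h

/-- `w ≤ h`, `D < W` -/
theorem lt_W (d : DD A T T' om wr) (h : (A.w : ℤ) ≤ A.h) (h1 : A.D + 2 ≤ A.q * A.w) : False := by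
  obtain ⟨j, s, c, hj, hc, s0, s1⟩ := exV A (c := A.w) (by have := A.hw; omega) (by
    have := A.w2; have := A.hw; omega)
  obtain rfl | rfl := d.hwr
  · obtain rfl | rfl := d.om1
    · rcases hc with hc | hc
      · exact rp0Bb d h h1 hj hc s0 s1
      · exact rp0Ba d h h1 hj hc s0 s1
    · rcases hc with hc | hc
      · exact rm0Bb d h h1 hj hc s0 s1
      · exact rm0Ba d h h1 hj hc s0 s1
  · obtain rfl | rfl := d.om1
    · rcases hc with hc | hc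
      · exact rp1Bb d h h1 hj hc s0 s1
      · exact rp1Ba d h h1 hj hc s0 s1
    · rcases hc with hc | hc
      · exact rm1Bb d h h1 hj hc s0 s1
      · exact rm1Ba d h h1 hj hc s0 s1

/-- `w ≤ h`, `W < D`, overlapping rectangles -/
theorem ovl (d : DD A T T' om wr) (h : (A.w : ℤ) ≤ A.h) (g : A.q * A.w + 2 ≤ A.D)
    (hn : ¬ T.NoOvD) : False := by
  obtain ⟨j, U, S, hj, n1, n2, u, v⟩ := d.exO hn
  obtain rfl | rfl := d.hwr
  · obtain rfl | rfl := d.om1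
    · rcases u with ⟨u0, u1⟩ | ⟨u0, u1⟩
      · rcases v with ⟨v0, v1⟩ | ⟨v0, v1⟩
        · exact rp0Cq4 d h g hj n1 n2 u0 u1 v0 v1
        · exact rp0Cq2 d h g hj n1 n2 u0 u1 v0 v1
      · rcases v with ⟨v0, v1⟩ | ⟨v0, v1⟩
        · exact rp0Cq3 d h g hj n1 n2 u0 u1 v0 v1
        · exact rp0Cq1 d h g hj n1 n2 u0 u1 v0 v1
    · rcases u with ⟨u0, u1⟩ | ⟨u0, u1⟩
      · rcases v with ⟨v0, v1⟩ | ⟨v0, v1⟩
        · exact rm0Cq4 d h g hj n1 n2 u0 u1 v0 v1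
        · exact rm0Cq2 d h g hj n1 n2 u0 u1 v0 v1
      · rcases v with ⟨v0, v1⟩ | ⟨v0, v1⟩
        · exact rm0Cq3 d h g hj n1 n2 u0 u1 v0 v1
        · exact rm0Cq1 d h g hj n1 n2 u0 u1 v0 v1
  · obtain rfl | rfl := d.om1
    · rcases u with ⟨u0, u1⟩ | ⟨u0, u1⟩
      · rcases v with ⟨v0, v1⟩ | ⟨v0, v1⟩
        · exact rp1Cq4 d h g hj n1 n2 u0 u1 v0 v1
        · exact rp1Cq2 d h g hj n1 n2 u0 u1 v0 v1
      · rcases v with ⟨v0, v1⟩ | ⟨v0, v1⟩
        · exact rp1Cq3 d h g hj n1 n2 u0 u1 v0 v1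
        · exact rp1Cq1 d h g hj n1 n2 u0 u1 v0 v1
    · rcases u with ⟨u0, u1⟩ | ⟨u0, u1⟩
      · rcases v with ⟨v0, v1⟩ | ⟨v0, v1⟩
        · exact rm1Cq4 d h g hj n1 n2 u0 u1 v0 v1
        · exact rm1Cq2 d h g hj n1 n2 u0 u1 v0 v1
      · rcases v with ⟨v0, v1⟩ | ⟨v0, v1⟩
        · exact rm1Cq3 d h g hj n1 n2 u0 u1 v0 v1
        · exact rm1Cq1 d h g hj n1 n2 u0 u1 v0 v1

/-- **double ties** -/
theorem DD.false
    (H1 : ∀ (A : TAp) (T T' : A.Tie) (om : ℤ), DD A T T' om 0 → T.NoOvD → (A.w : ℤ) ≤ A.h →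
      A.q * (A.w : ℤ) < A.D → False)
    (d : DD A T T' om wr) : False := by
  by_cases h : (A.w : ℤ) ≤ A.h
  · rcases d.Dgen A.w with g | g
    · by_cases hn : T.NoOvD
      · obtain rfl | rfl := d.hwr
        · exact H1 _ _ _ _ d hn h (by omega)
        · exact d.wrap hn
      · exact ovl d h g hn
    · exact lt_W d h g
  · exact gt d (by omega)

/-- **double ties** -/
theorem double
    (H1 : ∀ (A : TAp) (T T' : A.Tie) (om : ℤ), DD A T T' om 0 → T.NoOvD → (A.w : ℤ) ≤ A.h →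
      A.q * (A.w : ℤ) < A.D → False) :
    ∀ (A : TAp) (T T' : A.Tie), A.Fl → T'.t = A.q - T.t → T.t < T'.t → T'.ep = -T.ep →
      (A.p : ℤ) ∣ T'.x - (T.x + T.ep * A.om * A.h) → T.t ≠ 1 → T'.t ≠ 1 → T.x ≠ 0 → T'.x ≠ 0 →
      |T.x| < A.h → |T'.x| < A.h → False :=
  fun A T T' F ht _ hep hd t1 t2 x0 y0 x1 y1 =>
    red (fun _ _ _ _ _ d => d.false H1) A T T' F ht hep hd t1 t2 x0 y0 x1 y1

end Pool.Agent.H23.DT
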