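import Pool.Agent.H23.DT.Fin
import Pool.Agent.H78.D3.Fin

/-!
# Double ties: the final statement
-/

namespace Pool.Agent.H23.DT

open Pool.Agent.H78.Tie
open Pool.Agent.H78.Tie.TAp

/-- **there are no double ties** -/
theorem HD : ∀ (A : TAp) (T T' : A.Tie), A.Fl → T'.t = A.q - T.t → T.t < T'.t → T'.ep = -T.ep →
    (A.p : ℤ) ∣ T'.x - (T.x + T.ep * A.om * A.h) → T.t ≠ 1 → T'.t ≠ 1 → T.x ≠ 0 → T'.x ≠ 0 →
    |T.x| < A.h → |T'.x| < A.h → False :=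
  double fun _ _ _ _ d hn _ hD => Pool.Agent.H78.D3.D3a d hn hD

end Pool.Agent.H23.DT
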