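import Pool.Agent.H23.DT.Ex

/-!
# Double ties: the static rules `K1`, `K2`
-/

namespace Pool.Agent.H23.DT

open Pool.Agent.H78.RT
open Pool.Agent.H78.Tie
open Pool.Agent.H78.Tie.TAp
open Pool.Agent.H81.AP (LF dot dot_nil dot_nil' dot_cons AllNn AllNe)

variable {A : TAp} {T T' : A.Tie} {om wr : ℤ}

/-- `K1` and `K2` for double ties -/
theorem K12 (F : A.Fl) (T T' : A.Tie) (ht : T'.t = A.q - T.t) (hn : T.NoOvD) (h0 : T.x ≠ 0)
    (h1 : |T.x| < A.h) : A.w + |T.x| ≤ A.h := by
  obtain ⟨a, b, hT⟩ := T.pair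
  obtain ⟨u, hu⟩ := rc_exists A b
  rcases lt_or_gt_of_ne h0 with h | h
  · rw [abs_of_neg h] at h1 ⊢
    by_contra hc
    exact SC.K1 (T.scD T' ht hn) hT h h1 (by change (A.h : ℤ) < A.w - T.x; omega) hu (F.rc hu)
  · rw [abs_of_pos h] at h1 ⊢
    by_contra hc
    exact SC.K2 (T.scD T' ht hn) hT h h1 (by change (A.h : ℤ) < A.w + T.x; omega) hu (F.rc hu)

theorem NoOvD.swap {T T' : A.Tie} (ht : T'.t = A.q - T.t) (hn : T.NoOvD) : T'.NoOvD := by
  intro i m f s c h1 h2
  exact hn i m f s c (by omega) (by omega)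

theorem DD.Kx (d : DD A T T' om wr) (hn : T.NoOvD) :
    A.w + om * (2 * wr - 1) * T.x ≤ A.h := by
  have x0 := d.x0
  have x1 := d.x1
  have h : om * (2 * wr - 1) = 1 ∨ om * (2 * wr - 1) = -1 := by
    rcases d.om1 with h | h <;> rcases d.hwr with h' | h' <;> rw [h, h'] <;> norm_num
  rcases h with h | h
  · rw [h] at x0 x1 ⊢
    have := K12 d.F T T' d.ht hn (by omega) (by rw [abs_of_pos (by omega)]; omega)
    rw [abs_of_pos (by omega)] at this
    omega
  · rw [h] at x0 x1 ⊢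
    have := K12 d.F T T' d.ht hn (by omega) (by rw [abs_of_neg (by omega)]; omega)
    rw [abs_of_neg (by omega)] at this
    omega

theorem DD.Ky (d : DD A T T' om wr) (hn : T.NoOvD) :
    A.w - om * (2 * wr - 1) * T'.x ≤ A.h := by
  have x0 := d.y0
  have x1 := d.y1
  have ht : T.t = A.q - T'.t := by have := d.ht; omega
  have h : om * (2 * wr - 1) = 1 ∨ om * (2 * wr - 1) = -1 := by
    rcases d.om1 with h | h <;> rcases d.hwr with h' | h' <;> rw [h, h'] <;> norm_num
  rcases h with h | h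
  · rw [h] at x0 x1 ⊢
    have := K12 d.F T' T ht (NoOvD.swap d.ht hn) (by omega) (by rw [abs_of_neg (by omega)]; omega)
    rw [abs_of_neg (by omega)] at this
    omega
  · rw [h] at x0 x1 ⊢
    have := K12 d.F T' T ht (NoOvD.swap d.ht hn) (by omega) (by rw [abs_of_pos (by omega)]; omega)
    rw [abs_of_pos (by omega)] at this
    omega

end Pool.Agent.H23.DT
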