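import Pool.Agent.H23.DT.K

/-!
# Double ties: the normal form
-/

namespace Pool.Agent.H23.DT

open Pool.Agent.H78.RT
open Pool.Agent.H78.Tie
open Pool.Agent.H78.Tie.TAp

theorem small_mul {p z h : ℤ} (h0 : 2 * h < p) (hh : 0 < h) (h1 : p * z < 3 * h)
    (h2 : -(3 * h) < p * z) : z = -1 ∨ z = 0 ∨ z = 1 := by
  have a : z < 2 := by
    by_contra hc
    have : p * 2 ≤ p * z := mul_le_mul_of_nonneg_left (by omega) (by omega)
    omega
  have b : -2 < z := by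
    by_contra hc
    have : p * z ≤ p * (-2) := mul_le_mul_of_nonneg_left (by omega) (by omega)
    omega
  omega

/-- a double tie with `ep = 1` is in normal form -/
theorem DD.mk1 {A : TAp} {T T' : A.Tie} (F : A.Fl) (ht : T'.t = A.q - T.t) (e1 : T.ep = 1)
    (e2 : T'.ep = -1) (hd : (A.p : ℤ) ∣ T'.x - (T.x + A.om * A.h)) (t1 : T.t ≠ 1)
    (t2 : T'.t ≠ 1) (x0 : T.x ≠ 0) (y0 : T'.x ≠ 0) (x1 : |T.x| < A.h) (y1 : |T'.x| < A.h) :
    ∃ wr, DD A T T' A.om wr := by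
  have hh := A.hh
  have h2 := A.h2
  rw [abs_lt] at x1 y1
  obtain ⟨z, hz⟩ := hd
  rcases A.hom with ho | ho
  · rw [ho] at hz
    rcases small_mul (p := A.p) (z := z) (h := A.h) (by omega) (by omega) (by omega) (by omega)
      with h | h | h
    · refine ⟨1, F, ht, e1, e2, t1, t2, rfl, Or.inr rfl, ?_, ?_, ?_, ?_, ?_⟩ <;> rw [ho] <;>
        rw [h] at hz <;> omega
    · refine ⟨0, F, ht, e1, e2, t1, t2, rfl, Or.inl rfl, ?_, ?_, ?_, ?_, ?_⟩ <;> rw [ho] <;>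
        rw [h] at hz <;> omega
    · rw [h] at hz
      omega
  · rw [ho] at hz
    rcases small_mul (p := A.p) (z := z) (h := A.h) (by omega) (by omega) (by omega) (by omega)
      with h | h | h
    · rw [h] at hz
      omega
    · refine ⟨0, F, ht, e1, e2, t1, t2, rfl, Or.inl rfl, ?_, ?_, ?_, ?_, ?_⟩ <;> rw [ho] <;>
        rw [h] at hz <;> omega
    · refine ⟨1, F, ht, e1, e2, t1, t2, rfl, Or.inr rfl, ?_, ?_, ?_, ?_, ?_⟩ <;> rw [ho] <;>
        rw [h] at hz <;> omega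

/-- reduction of double ties to the normal form -/
theorem red (H : ∀ (A : TAp) (T T' : A.Tie) (om wr : ℤ), DD A T T' om wr → False)
    (A : TAp) (T T' : A.Tie) (F : A.Fl) (ht : T'.t = A.q - T.t) (hep : T'.ep = -T.ep)
    (hd : (A.p : ℤ) ∣ T'.x - (T.x + T.ep * A.om * A.h)) (t1 : T.t ≠ 1)
    (t2 : T'.t ≠ 1) (x0 : T.x ≠ 0) (y0 : T'.x ≠ 0) (x1 : |T.x| < A.h) (y1 : |T'.x| < A.h) :
    False := by
  rcases T.hep with h | h
  · rw [h] at hep hd
    rw [one_mul] at hd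
    obtain ⟨wr, d⟩ := DD.mk1 F ht h hep hd t1 t2 x0 y0 x1 y1
    exact H _ _ _ _ _ d
  · rw [h] at hep hd
    have hd' : (A.p : ℤ) ∣ T.x - (T'.x + A.om * A.h) := by
      rw [← dvd_neg]
      rwa [show T'.x - (T.x + -1 * A.om * A.h) = -(T.x - (T'.x + A.om * A.h)) by ring] at hd
    obtain ⟨wr, d⟩ := DD.mk1 F (T := T') (T' := T) (by omega) (by rw [hep]; norm_num) h hd' t2 t1
      y0 x0 y1 x1
    exact H _ _ _ _ _ d

end Pool.Agent.H23.DT
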